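import Pool.Agent.H705.RO.Stm4

/-! # ALD: the parts together (helper795 for helper705) -/

set_option autoImplicit false

namespace Pool.Agent.H795.RO

open MeasureTheory ProbabilityTheory Filter Topology Finset
open Pool.Agent.H705.RO

theorem T_ALD (hEVD : P_EVD) (hBLD : P_BLD) (hFID : P_FID) : P_ALD := by
  intro c hc
  obtain ⟨D, hD, hE⟩ := hEVD c hc
  obtain ⟨B, hB, hF⟩ := hFID
  refine ⟨9 * B * (2 * D + 4), by positivity, ?_⟩
  intro Ω _ P X hX d γ f b hd hord hinj hb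
  filter_upwards [hE Ω P X hX d γ f b (fun q hq => (hd q hq).1) hord hinj hb] with ω hω
  obtain ⟨j₀, hj⟩ := hω
  refine ⟨2 ^ (max j₀ 1), fun x hx q r hq hqx hr => ?_⟩
  have hx1 : (1 : ℝ) ≤ x := (one_le_pow₀ one_le_two).trans hx
  obtain ⟨j, hj1, hj2⟩ := exists_nat_pow_near hx1 (one_lt_two : (1 : ℝ) < 2)
  have hjm : max j₀ 1 < j + 1 :=
    (pow_lt_pow_iff_right₀ (one_lt_two : (1 : ℝ) < 2)).1 (lt_of_le_of_lt hx hj2)
  have hj0 : j₀ ≤ j := by
    have := le_max_left j₀ 1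
    omega
  have hj1' : 1 ≤ j := by
    have := le_max_right j₀ 1
    omega
  have hq2 : q ≤ 2 ^ (j + 1) := by
    have h : (q : ℝ) ≤ ((2 ^ (j + 1) : ℕ) : ℝ) := by
      push_cast
      exact hqx.trans hj2.le
    exact_mod_cast h
  obtain ⟨hd1, hd2⟩ := hd q hq
  have hdr : (0 : ℝ) < d q := by exact_mod_cast hd1
  have hx0 : 0 < x := by linarith
  obtain ⟨s, hs⟩ : ∃ s : ℕ → ℝ, s = fun n => bz d γ f (fun n => X n ω) q (b q r) {n} x :=
    ⟨_, rfl⟩
  have hsum : ∀ A : Finset ℕ, ∑ n ∈ A, s n = bz d γ f (fun n => X n ω) q (b q r) A x := by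
    intro A
    rw [hs]
    unfold bz
    simp only [sum_singleton]
    rw [Finset.sum_div]
  obtain ⟨E, hEdef⟩ : ∃ E : ℝ, E = (2 * D + 4) * Real.sqrt (x / d q) := ⟨_, rfl⟩
  have hE0 : 0 ≤ E := by rw [hEdef]; positivity
  have hE2 : E ^ 2 = (2 * D + 4) ^ 2 * (x / d q) := by
    rw [hEdef, mul_pow, Real.sq_sqrt (by positivity)]
  obtain ⟨S, hS1, hS2⟩ := hF s E j hE0 (fun l M h1 h2 => by
    rw [hsum]
    have h := hBLD d γ f (fun n => X n ω) q (b q r) j l M D hd1 hd2 hq2 (hb q r) hD.le h1 h2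
      (fun i x' hx' h3 h4 => hj j hj0 l q r i M x' hq hq2 hr hx' h3 h4 h1 h2) x hj1 hj2.le
    refine h.trans (Real.sqrt_le_sqrt (le_of_eq ?_))
    rw [hE2]
    field_simp)
  refine ⟨S, ?_, ?_⟩
  · refine hS1.congr fun N => ?_
    rw [hsum]
  · have hl2 := Real.log_two_gt_d9
    have hlog : (j : ℝ) * Real.log 2 ≤ Real.log x := by
      rw [← Real.log_pow]
      exact Real.log_le_log (by positivity) hj1
    have hjr : (1 : ℝ) ≤ j := by exact_mod_cast hj1'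
    have h3 : (j : ℝ) + 1 ≤ 3 * Real.log x := by nlinarith
    have hlx : 0 ≤ Real.log x := Real.log_nonneg hx1
    have h4 : ((j : ℝ) + 1) ^ (3 / 2 : ℝ) ≤ 9 * Real.log x ^ (3 / 2 : ℝ) := by
      calc ((j : ℝ) + 1) ^ (3 / 2 : ℝ) ≤ (3 * Real.log x) ^ (3 / 2 : ℝ) :=
            Real.rpow_le_rpow (by positivity) h3 (by norm_num)
        _ = 3 ^ (3 / 2 : ℝ) * Real.log x ^ (3 / 2 : ℝ) := Real.mul_rpow (by norm_num) hlx
        _ ≤ 9 * Real.log x ^ (3 / 2 : ℝ) := by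
            refine mul_le_mul_of_nonneg_right ?_ (Real.rpow_nonneg hlx _)
            calc (3 : ℝ) ^ (3 / 2 : ℝ) ≤ (3 : ℝ) ^ (2 : ℝ) :=
                  Real.rpow_le_rpow_of_exponent_le (by norm_num) (by norm_num)
              _ = 9 := by
                  rw [Real.rpow_ofNat]
                  norm_num
    calc |S| ≤ B * E * ((j : ℝ) + 1) ^ (3 / 2 : ℝ) := hS2
      _ ≤ B * E * (9 * Real.log x ^ (3 / 2 : ℝ)) := mul_le_mul_of_nonneg_left h4 (by positivity)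
      _ = 9 * B * (2 * D + 4) * Real.sqrt (x / d q) * Real.log x ^ (3 / 2 : ℝ) := by
          rw [hEdef]
          ring

end Pool.Agent.H795.RO
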